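import Pool.Agent.Helper51.SDL.Goals

set_option autoImplicit false

namespace Pool.Agent.Helper85.SDL.HQE

open Subgroup

/-- **HQE** (multiplicativity of the Herbrand quotient). -/
theorem t : Pool.Agent.Helper51.SDL.S_HQE := by
  intro M _ f g H hfg hfH hgH hk1 hk2 hi1 hi2
  set K : Subgroup M := H ⊓ g.ker with hK
  have hfK : K.map f ≤ K := by
    rintro _ ⟨x, hx, rfl⟩
    refine ⟨hfH ⟨x, hx.1, rfl⟩, ?_⟩
    change g (f x) = 1
    rw [← hfg, show g x = 1 from hx.2, map_one]
  have hKH : K ≤ H := inf_le_left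
  -- cokernels
  have hI : (H.map g).map f = (H.map f).map g := by
    rw [map_map, map_map]
    congr 1
    ext x
    exact hfg x
  have e1 : ((H.map g).map f).relIndex (H.map g) = (H.map f ⊔ g.ker).relIndex H := by
    rw [hI, ← relIndex_comap, comap_map_eq]
  have e2 : (H.map f ⊔ g.ker) ⊓ H = K ⊔ H.map f := by
    rw [sup_inf_assoc_of_le _ hfH, sup_comm, hK, inf_comm]
  have e3 : (H.map f).relIndex H = (H.map f).relIndex K * ((H.map g).map f).relIndex (H.map g) := by
    have h1 : (H.map f).relIndex (K ⊔ H.map f) * (K ⊔ H.map f).relIndex H =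
        (H.map f).relIndex H := relIndex_mul_relIndex _ _ _ le_sup_right (sup_le hKH hfH)
    rw [← h1, relIndex_sup_right, ← e2, inf_relIndex_right, e1]
  have e4 : (K.map f).relIndex K = (K.map f).relIndex (H.map f ⊓ K) * (H.map f).relIndex K := by
    rw [← inf_relIndex_right (H.map f) K]
    exact (relIndex_mul_relIndex _ _ _ (le_inf (map_mono hKH) hfK) inf_le_right).symm
  -- kernels
  set L : Subgroup M := H ⊓ f.ker with hL
  have e5 : Nat.card L = Nat.card (K ⊓ f.ker : Subgroup M) * Nat.card (L.map g) := by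
    have h1 : K ⊓ f.ker = g.ker ⊓ L := by
      rw [hK, hL]
      ext x
      simp only [mem_inf]
      tauto
    rw [h1, ← relIndex_bot_left, ← relIndex_bot_left, ← relIndex_ker,
      relIndex_inf_mul_relIndex, bot_inf_eq]
  -- the claim
  set N : Subgroup M := H ⊓ (g.ker).comap f with hN
  have hKN : K ≤ N := by
    intro x hx
    exact ⟨hx.1, (hfK ⟨x, hx, rfl⟩).2⟩
  have hLN : L ≤ N := by
    intro x hx
    refine ⟨hx.1, ?_⟩
    change g (f x) = 1
    rw [show f x = 1 from hx.2, map_one]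
  have e6 : H.map g ⊓ f.ker = N.map g := by
    ext y
    constructor
    · rintro ⟨⟨h, hh, rfl⟩, hy⟩
      refine ⟨h, ⟨hh, ?_⟩, rfl⟩
      change g (f h) = 1
      rw [← hfg]
      exact hy
    · rintro ⟨h, ⟨hh, hy⟩, rfl⟩
      refine ⟨⟨h, hh, rfl⟩, ?_⟩
      change f (g h) = 1
      rw [hfg]
      exact hy
  have e7 : N.map f = H.map f ⊓ K := by
    ext y
    constructor
    · rintro ⟨h, ⟨hh, hy⟩, rfl⟩
      exact ⟨⟨h, hh, rfl⟩, hfH ⟨h, hh, rfl⟩, hy⟩
    · rintro ⟨⟨h, hh, rfl⟩, hy⟩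
      exact ⟨h, ⟨hh, hy.2⟩, rfl⟩
  have e8 : Nat.card (H.map g ⊓ f.ker : Subgroup M) =
      Nat.card (L.map g) * (K.map f).relIndex (H.map f ⊓ K) := by
    have h1 : g.ker ⊓ N = K := by
      apply le_antisymm
      · intro x hx
        exact ⟨hx.2.1, hx.1⟩
      · exact le_inf inf_le_right hKN
    have h2 : (K ⊔ f.ker) ⊓ N = L ⊔ K := by
      rw [sup_inf_assoc_of_le _ hKN, sup_comm]
      congr 1
      apply le_antisymm
      · intro x hx
        exact ⟨hx.2.1, hx.1⟩
      · exact le_inf inf_le_right hLN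
    have h3 : g.ker ⊓ L = K ⊓ L := by
      ext x
      simp only [hK, hL, mem_inf]
      tauto
    have h4 : K.relIndex L = K.relIndex (L ⊔ K) := by rw [relIndex_sup_right]
    rw [e6, ← relIndex_ker, ← inf_relIndex_right, h1, ← e7, ← relIndex_comap, comap_map_eq,
      ← inf_relIndex_right (K ⊔ f.ker) N, h2, ← relIndex_ker, ← inf_relIndex_right g.ker L, h3,
      inf_relIndex_right, h4]
    exact (relIndex_mul_relIndex _ _ _ le_sup_right (sup_le hLN hKN)).symm
  have hu : (H.map f).relIndex K ≠ 0 := fun h => hk1 (by rw [e4, h, mul_zero])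
  have hi3 : Nat.card (H.map g ⊓ f.ker : Subgroup M) ≠ 0 := Nat.card_pos.ne'
  have hx : Nat.card (L.map g) ≠ 0 := fun h => hi3 (by rw [e8, h, zero_mul])
  have hk3 : Nat.card (K ⊓ f.ker : Subgroup M) ≠ 0 := Nat.card_pos.ne'
  refine ⟨?_, ?_, ?_⟩
  · rw [e3]
    exact mul_ne_zero hu hi1
  · apply Nat.finite_of_card_ne_zero
    rw [e5]
    exact mul_ne_zero hk3 hx
  · rw [e3, e4, e5, e8]
    ring

end Pool.Agent.Helper85.SDL.HQE
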